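import Pool.Agent.Run7.h638.WR.Iface

/-! Piece `N1` of the project WR (MP_5885b3_lc). -/

set_option autoImplicit false

universe u

namespace Run7.h930.WR

open Pool.Agent.Run7.h638.WR

theorem t_N1 : N1 := by
  intro K Γ Q prog e q0 S0 L he hL hS τ hτ0 hok
  have hθ : ∀ i j, ∃ a : Base K Γ Q, (τ i j).1 = e a := by
    intro i j
    obtain ⟨⟨a, b, c, d, h1, -⟩, -⟩ := hok i j
    exact ⟨a, h1⟩
  choose θ hθ using hθ
  have hHV : ∀ i j, HR (θ i j) (θ i (j + 1)) ∧
      VR prog (θ i j) (θ i (j + 1)) (θ (i + 1) j) (θ (i + 1) (j + 1)) := by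
    intro i j
    obtain ⟨⟨a, b, c, d, h1, h2, h3, h4, h5, h6, h7⟩, -⟩ := hok i j
    have e1 : θ i j = a := he ((hθ i j).symm.trans h1)
    have e2 : θ i (j + 1) = b := he ((hθ i (j + 1)).symm.trans h2)
    have e3 : θ (i + 1) j = c := he ((hθ (i + 1) j).symm.trans h3)
    have e4 : θ (i + 1) (j + 1) = d := he ((hθ (i + 1) (j + 1)).symm.trans h4)
    rw [e1, e2, e3, e4]
    exact ⟨h5, h7⟩
  have hT : ∀ i j, TileOk e q0 S0 L (τ i j) := fun i j => (hok i j).2.1
  have hI : ∀ i j, IdxOk L (τ i j).2 (τ i (j + 1)).2 := fun i j => (hok i j).2.2.2.2.2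
  have h00 : θ 0 0 = .ctl .sx q0 := by
    apply he
    rw [← hθ 0 0, hτ0]
    rfl
  have h002 : (τ 0 0).2 = 1 := by rw [hτ0]; rfl
  -- the indices in the written part
  have hA : ∀ j, j ≤ L → (τ 0 j).2 = j + 1 := by
    intro j
    induction j with
    | zero => intro _; exact h002
    | succ j ih =>
      intro hj
      have h1 := ih (by omega)
      rcases hI 0 j with h | h | h <;> omega
  have hB : ∀ j, j ≤ L → θ 0 j = srow q0 S0 j := by
    intro j hj
    have h1 := hA j hj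
    rcases hT 0 j with ⟨h2, -⟩ | ⟨-, -, h2⟩
    · omega
    · apply he
      rw [← hθ 0 j, h2, h1]
      rfl
  have hC : (τ 0 (L + 1)).2 = 0 := by
    have h1 := hA L le_rfl
    rcases hI 0 L with h | h | h <;> omega
  have hNS : ∀ j, (τ 0 j).2 = 0 → NS (θ 0 j) := by
    intro j hj
    rcases hT 0 j with ⟨-, θ', h3, h4⟩ | ⟨h2, -⟩
    · have : θ 0 j = θ' := he ((hθ 0 j).symm.trans h4)
      rw [this]; exact h3
    · omega
  -- one step to the right of a cell of the start row
  have hstep : ∀ (s : St) (l : K → Option Γ) (b : Base K Γ Q), s ≠ .run →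
      HR (.cell s q0 l) b → NS b → b = .J ∨ b = .cell .sb q0 (fun _ => none) := by
    intro s l b hs hb hn
    cases b with
    | J => exact Or.inl rfl
    | ctl s' q' => exact absurd hb (by simp [HR])
    | cell s' q' l' =>
      right
      simp only [HR] at hb
      simp only [NS] at hn
      obtain ⟨h1, h2 | h2 | h2⟩ := hb
      · exact absurd h2.1 hs
      · exact absurd h2.2 hn
      · obtain ⟨-, h3, h4⟩ := h2
        rw [h1, h3, h4]
  have hD : ∀ j, L + 1 ≤ j → (∃ j', L + 1 ≤ j' ∧ j' ≤ j ∧ θ 0 j' = .J) ∨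
      ((τ 0 j).2 = 0 ∧ θ 0 j = .cell .sb q0 (fun _ => none)) := by
    intro j hj
    induction j, hj using Nat.le_induction with
    | base =>
      have h1 : θ 0 L = .cell .sx q0 (fun k => (S0 k)[L - 1]?) := by
        rw [hB L le_rfl, srow, if_neg (by omega)]
      have h2 := (hHV 0 L).1
      rw [h1] at h2
      rcases hstep .sx _ _ (by simp) h2 (hNS _ hC) with h3 | h3
      · exact Or.inl ⟨L + 1, le_rfl, le_rfl, h3⟩
      · exact Or.inr ⟨hC, h3⟩
    | succ j hj ih =>
      rcases ih with ⟨j', h1, h2, h3⟩ | ⟨h1, h2⟩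
      · exact Or.inl ⟨j', h1, by omega, h3⟩
      · have h3 := (hHV 0 j).1
        rw [h2] at h3
        have h4 : (τ 0 (j + 1)).2 ≤ 1 := by
          rcases hI 0 j with h | h | h <;> omega
        have h5 : (τ 0 (j + 1)).2 = 0 := by
          by_contra h6
          have h7 : (τ 0 (j + 1)).2 = 1 := by omega
          rcases hT 0 (j + 1) with ⟨h8, -⟩ | ⟨-, -, h8⟩
          · omega
          · rw [h7] at h8
            have h9 : θ 0 (j + 1) = .ctl .sx q0 := by
              apply he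
              rw [← hθ 0 (j + 1), h8]
              rfl
            rw [h9] at h3
            exact absurd h3 (by simp [HR])
        rcases hstep .sb _ _ (by simp) h3 (hNS _ h5) with h6 | h6
        · exact Or.inl ⟨j + 1, by omega, le_rfl, h6⟩
        · exact Or.inr ⟨h5, h6⟩
  have hnone : ∀ j, L + 1 ≤ j → (fun k => (S0 k)[j - 1]?) = (fun _ : K => (none : Option Γ)) := by
    intro j hj
    funext k
    have := hS k
    exact List.getElem?_eq_none (by omega)
  have hcell : ∀ j, 1 ≤ j → (∀ j', L + 1 ≤ j' → j' ≤ j → θ 0 j' ≠ .J) →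
      ∃ s, θ 0 j = .cell s q0 (fun k => (S0 k)[j - 1]?) := by
    intro j hj hn
    by_cases hjL : j ≤ L
    · exact ⟨.sx, by rw [hB j hjL, srow, if_neg (by omega)]⟩
    · rcases hD j (by omega) with ⟨j', h1, h2, h3⟩ | ⟨-, h2⟩
      · exact absurd h3 (hn j' h1 h2)
      · exact ⟨.sb, by rw [h2, hnone j (by omega)]⟩
  refine ⟨θ, fun i j => (hHV i j).1, fun i j => (hHV i j).2, ⟨.sx, h00⟩, ?_⟩
  by_cases hJ : ∃ j, L + 1 ≤ j ∧ θ 0 j = .J
  · right
    classical
    obtain ⟨h1, h2⟩ := Nat.find_spec hJ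
    have h3 : ∀ j', j' < Nat.find hJ → ¬ (L + 1 ≤ j' ∧ θ 0 j' = .J) := fun j' => Nat.find_min hJ
    generalize Nat.find hJ = j0 at h1 h2 h3
    refine ⟨j0 - 1, by omega, ?_, ?_, ?_⟩
    · intro j hj1 hj2
      exact hcell j hj1 (fun j' h4 h5 h6 => h3 j' (by omega) ⟨h4, h6⟩)
    · rw [show j0 - 1 + 1 = j0 by omega]
      exact h2
    · intro k
      have := hS k
      show (S0 k).length ≤ j0 - 1
      omega
  · left
    intro j hj
    exact hcell j hj (fun j' h4 _ h6 => hJ ⟨j', h4, h6⟩)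

end Run7.h930.WR
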