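import Pool.Agent.Run7.h638.WR.Iface

/-! Piece `QS` of the project WR (MP_5885b3_lc). -/

set_option autoImplicit false

universe u

namespace Run7.h930.WR

open Pool.Agent.Run7.h638.WR

theorem kind_diag (i : ℕ) : kind i i = 0 := by
  unfold kind
  split_ifs <;> first | rfl | omega

theorem rule_diag_left (i k : ℕ) (u v w : Win) : rule i i k u v w := by
  unfold rule
  simp [kind_diag]

/-- the diagonal atom -/
def dg (Q : List Win) (i : ℕ) (hi : i < 6) : At Q :=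
  ⟨((i, i), lb 0), hi, hi, by simp [blk, kind_diag]⟩

theorem t_QS : QS.{u} := by
  intro Q X _ h F
  -- the sets
  set E : Set (At Q) := {c | c.1.1.1 = c.1.1.2} with hE
  have weakE : ∀ S : Set (At Q), ∀ x' x y y' : X, x' ≤ x → h S x y → y ≤ y' → h S x' y' :=
    fun S => F.weak S
  -- (a)
  have ha : ∀ x y, h Set.univ x y → ∃ z, h E x z ∧ h Set.univ z y := by
    intro x y hxy
    have hsub : (Set.univ : Set (At Q)) ⊆ cmpS Q E Set.univ := by
      intro c _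
      refine ⟨dg Q c.1.1.1 c.2.1, ?_, c, Set.mem_univ _, ?_⟩
      · simp [hE, dg]
      · refine ⟨rfl, rfl, ?_⟩
        exact rule_diag_left _ _ _ _ _
    exact (F.comp _ _ _ _).1 (F.mono _ _ hsub _ _ hxy)
  -- (b)
  have hb : cmpS Q Eᶜ E ⊆ Eᶜ := by
    rintro c ⟨a, ha, b, hb, h1, h2, -⟩
    intro hc
    apply ha
    have e1 : c.1.1.1 = a.1.1.1 := by rw [h2]
    have e2 : c.1.1.2 = b.1.1.2 := by rw [h2]
    have e3 : c.1.1.1 = c.1.1.2 := hc
    have e4 : b.1.1.1 = b.1.1.2 := hb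
    show a.1.1.1 = a.1.1.2
    rw [← e1, e3, e2, ← e4, ← h1]
  -- (c)
  have hcc : ∀ P : ℕ → Prop, cmpS Q {c | P c.1.1.1} Set.univ ⊆ {c | P c.1.1.1} := by
    rintro P c ⟨a, ha, b, -, h1, h2, -⟩
    have e1 : c.1.1.1 = a.1.1.1 := by rw [h2]
    show P c.1.1.1
    rw [e1]; exact ha
  -- (d)
  have hdd : ∀ P : ℕ → Prop, cmpS Q Set.univ {c | P c.1.1.2} ⊆ {c | P c.1.1.2} := by
    rintro P c ⟨a, -, b, hb, h1, h2, -⟩
    have e1 : c.1.1.2 = b.1.1.2 := by rw [h2]
    show P c.1.1.2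
    rw [e1]; exact hb
  have useC : ∀ (P : ℕ → Prop) (x y z : X), h {c | P c.1.1.1} x y → h {c | P c.1.1.1} x z := by
    intro P x y z hxy
    exact F.mono _ _ (hcc P) _ _ ((F.comp _ _ _ _).2 ⟨y, hxy, F.top _ _⟩)
  have useD : ∀ (P : ℕ → Prop) (x y z : X), h {c | P c.1.1.2} y z → h {c | P c.1.1.2} x z := by
    intro P x y z hyz
    exact F.mono _ _ (hdd P) _ _ ((F.comp _ _ _ _).2 ⟨y, F.top _ _, hyz⟩)
  have bot' : ∀ (S : Set (At Q)) (x y : X), h S x y → (∀ c ∈ S, False) → False := by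
    intro S x y hxy hS
    have : S = ∅ := Set.eq_empty_iff_forall_notMem.2 hS
    rw [this] at hxy
    exact F.bot _ _ hxy
  -- Step 1
  have s1 : ∀ x, h E x x := by
    intro x
    by_contra hx
    obtain ⟨x', x'', hx', hx'', hE'⟩ := F.compl _ _ _ hx
    obtain ⟨y, hy, -⟩ := ha x'' x'' (F.top _ _)
    have h1 : h Eᶜ x' y := F.mono _ _ hb _ _ ((F.comp _ _ _ _).2 ⟨x'', hE', hy⟩)
    have h2 : h E x' y := F.weak E x' x'' y y (le_trans hx' hx'') hy le_rfl
    refine bot' _ _ _ (F.inter _ _ _ _ h2 h1) ?_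
    rintro c ⟨hc1, hc2⟩
    exact hc2 hc1
  -- Step 2
  have s2 : ∀ x, ∃ i, i < 6 ∧ ∃ x' x'', x' ≤ x ∧ x ≤ x'' ∧ h (bk Q i i) x' x'' := by
    intro x
    have key : ∀ n : ℕ, (∃ i, i < n ∧ ∃ x' x'', x' ≤ x ∧ x ≤ x'' ∧ h (bk Q i i) x' x'') ∨
        ∃ x' x'', x' ≤ x ∧ x ≤ x'' ∧ h (E ∩ {c | n ≤ c.1.1.1}) x' x'' := by
      intro n
      induction n with
      | zero =>
        right
        refine ⟨x, x, le_rfl, le_rfl, F.mono E _ ?_ _ _ (s1 x)⟩
        intro c hc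
        exact ⟨hc, Nat.zero_le _⟩
      | succ n ih =>
        rcases ih with ⟨i, hi, x', x'', h1, h2, h3⟩ | ⟨x', x'', h1, h2, h3⟩
        · exact Or.inl ⟨i, Nat.lt_succ_of_lt hi, x', x'', h1, h2, h3⟩
        · by_cases h4 : h (bk Q n n) x' x''
          · exact Or.inl ⟨n, Nat.lt_succ_self n, x', x'', h1, h2, h4⟩
          · obtain ⟨y', y'', hy', hy'', h5⟩ := F.compl _ _ _ h4
            right
            refine ⟨y', y'', le_trans hy' h1, le_trans h2 hy'', ?_⟩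
            have h6 := F.weak _ y' x' x'' y'' hy' h3 hy''
            refine F.mono _ _ ?_ _ _ (F.inter _ _ _ _ h6 h5)
            rintro c ⟨⟨hc1, hc2⟩, hc3⟩
            refine ⟨hc1, ?_⟩
            have hc1' : c.1.1.1 = c.1.1.2 := hc1
            have hc2' : n ≤ c.1.1.1 := hc2
            have hc4 : c.1.1.1 ≠ n := by
              intro he
              apply hc3
              show c.1.1 = (n, n)
              exact Prod.ext he (hc1' ▸ he)
            show n + 1 ≤ c.1.1.1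
            omega
    rcases key 6 with h6 | ⟨x', x'', -, -, h3⟩
    · exact h6
    · exfalso
      refine bot' _ _ _ h3 ?_
      rintro c ⟨-, hc2⟩
      have := c.2.1
      have hc2' : 6 ≤ c.1.1.1 := hc2
      omega
  -- Step 3
  have s3 : ∀ x, ∃ i, i < 6 ∧ h (bk Q i i) x x := by
    intro x
    obtain ⟨i, hi, x', x'', hx', hx'', hii⟩ := s2 x
    refine ⟨i, hi, ?_⟩
    by_contra hn
    obtain ⟨y', y'', hy', hy'', h1⟩ := F.compl _ _ _ hn
    have h2 : h E y' y'' := F.weak E y' x x y'' hy' (s1 x) hy''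
    have h3 : h {c : At Q | c.1.1.1 ≠ i} y' y'' := by
      refine F.mono _ _ ?_ _ _ (F.inter _ _ _ _ h2 h1)
      rintro c ⟨hc1, hc2⟩
      have hc1' : c.1.1.1 = c.1.1.2 := hc1
      intro he
      apply hc2
      show c.1.1 = (i, i)
      exact Prod.ext he (hc1' ▸ he)
    have h4 : h E y' x'' := F.weak E y' x x x'' hy' (s1 x) hx''
    have h5 : h {c : At Q | c.1.1.2 = i} x' x'' := by
      refine F.mono _ _ ?_ _ _ hii
      intro c hc
      have hc' : c.1.1 = (i, i) := hc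
      show c.1.1.2 = i
      rw [hc']
    have h6 : h {c : At Q | c.1.1.2 = i} y' x'' := useD (fun m => m = i) y' x' x'' h5
    have h7 : h {c : At Q | c.1.1.1 ≠ i} y' x'' := useC (fun m => m ≠ i) y' y'' x'' h3
    refine bot' _ _ _ (F.inter _ _ _ _ (F.inter _ _ _ _ h4 h6) h7) ?_
    rintro c ⟨⟨hc1, hc2⟩, hc3⟩
    have hc1' : c.1.1.1 = c.1.1.2 := hc1
    have hc2' : c.1.1.2 = i := hc2
    exact hc3 (hc1'.trans hc2')
  -- Step 4
  choose σ hσ6 hσ using s3
  refine ⟨σ, hσ6, ?_⟩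
  intro x y
  have h1 : h {c : At Q | c.1.1.1 = σ x} x y := by
    refine useC (fun m => m = σ x) x x y ?_
    refine F.mono _ _ ?_ _ _ (hσ x)
    intro c hc
    have hc' : c.1.1 = (σ x, σ x) := hc
    show c.1.1.1 = σ x
    rw [hc']
  have h2 : h {c : At Q | c.1.1.2 = σ y} x y := by
    refine useD (fun m => m = σ y) x y y ?_
    refine F.mono _ _ ?_ _ _ (hσ y)
    intro c hc
    have hc' : c.1.1 = (σ y, σ y) := hc
    show c.1.1.2 = σ y
    rw [hc']
  refine F.mono _ _ ?_ _ _ (F.inter _ _ _ _ h1 h2)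
  rintro c ⟨hc1, hc2⟩
  show c.1.1 = (σ x, σ y)
  exact Prod.ext hc1 hc2

end Run7.h930.WR
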