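import Pool.Agent.Run7.h638.WR.Iface

/-! Piece `C5` of the project WR (MP_5885b3_lc). -/

set_option autoImplicit false

universe u

namespace Run7.h930.WR

open Pool.Agent.Run7.h638.WR

/-- transport of one representation along an isomorphism -/
theorem isRep_transport {A B : Type} {cA iA : A → A → A} {cB iB : B → B → B} (e : A ≃ B)
    (hc : ∀ a a', e (cA a a') = cB (e a) (e a')) (hi : ∀ a a', e (iA a a') = iB (e a) (e a'))
    {X : Type u} [PartialOrder X] {h : B → X → X → Prop} (H : IsRep cB iB h) :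
    IsRep cA iA (fun a => h (e a)) := by
  refine ⟨?_, ?_, ?_, ?_⟩
  · intro a b hab
    exact e.injective (H.inj hab)
  · intro a
    exact H.weak (e a)
  · intro a b
    show h (e (cA a b)) = _
    rw [hc, H.comp]
  · intro a b
    show h (e (iA a b)) = _
    rw [hi, H.imp]

theorem symm_hom {A B : Type} {cA : A → A → A} {cB : B → B → B} (e : A ≃ B)
    (hc : ∀ a a', e (cA a a') = cB (e a) (e a')) (b b' : B) :
    e.symm (cB b b') = cA (e.symm b) (e.symm b') := by
  apply e.injective
  rw [hc]
  simp

theorem rep_iff {A B : Type} {cA iA : A → A → A} {cB iB : B → B → B} (e : A ≃ B)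
    (hc : ∀ a a', e (cA a a') = cB (e a) (e a')) (hi : ∀ a a', e (iA a a') = iB (e a) (e a')) :
    (Rep.{u} cA iA ↔ Rep.{u} cB iB) ∧ (FinRep.{u} cA iA ↔ FinRep.{u} cB iB) := by
  refine ⟨⟨?_, ?_⟩, ⟨?_, ?_⟩⟩
  · rintro ⟨X, inst, h, H⟩
    exact ⟨X, inst, _, isRep_transport e.symm (symm_hom e hc) (symm_hom e hi) H⟩
  · rintro ⟨X, inst, h, H⟩
    exact ⟨X, inst, _, isRep_transport e hc hi H⟩
  · rintro ⟨X, inst, h, hf, H⟩
    exact ⟨X, inst, _, hf, isRep_transport e.symm (symm_hom e hc) (symm_hom e hi) H⟩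
  · rintro ⟨X, inst, h, hf, H⟩
    exact ⟨X, inst, _, hf, isRep_transport e hc hi H⟩

/-- a sublist of a list without duplicates is determined by its members -/
theorem sublist_eq_filter {α : Type} [DecidableEq α] {l l' : List α} (h : List.Sublist l l')
    (hn : l'.Nodup) : l = l'.filter (fun a => decide (a ∈ l)) := by
  induction h with
  | slnil => rfl
  | @cons l1 l2 a h ih =>
    have ha : a ∉ l2 := (List.nodup_cons.1 hn).1
    have ha1 : a ∉ l1 := fun h' => ha (h.subset h')
    rw [List.filter_cons_of_neg (by simpa using ha1)]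
    exact ih (List.nodup_cons.1 hn).2
  | @cons_cons l1 l2 a h ih =>
    have ha : a ∉ l2 := (List.nodup_cons.1 hn).1
    rw [List.filter_cons_of_pos (by simp)]
    congr 1
    refine (ih (List.nodup_cons.1 hn).2).trans ?_
    apply List.filter_congr
    intro x hx
    have hxa : x ≠ a := fun h' => ha (h' ▸ hx)
    simp [hxa]

/-- the map -/
def phi (Q : List Win) (n : ℕ) (i : Fin (n + 1)) : Set (At Q) :=
  {c | c.1 ∈ (subs Q).getD i.val []}

theorem subs_pos (Q : List Win) : 0 < (subs Q).length := by
  unfold subs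
  rw [List.length_sublists']
  positivity

theorem getD_mem (Q : List Win) (n : ℕ) (hn : n + 1 = (subs Q).length) (i : Fin (n + 1)) :
    (subs Q).getD i.val [] ∈ subs Q := by
  have hi : i.val < (subs Q).length := by
    have := i.2
    omega
  rw [List.getD_eq_getElem _ _ hi]
  exact List.getElem_mem hi

theorem phi_bij (hC1 : C1) (Q : List Win) (n : ℕ) (hn : n + 1 = (subs Q).length) :
    Function.Bijective (phi Q n) := by
  classical
  obtain ⟨hnd, hat⟩ := hC1.1 Q
  constructor
  · intro i j hij
    have h1 := getD_mem Q n hn i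
    have h2 := getD_mem Q n hn j
    have s1 : List.Sublist ((subs Q).getD i.val []) (atoms Q) := List.mem_sublists'.1 h1
    have s2 : List.Sublist ((subs Q).getD j.val []) (atoms Q) := List.mem_sublists'.1 h2
    have hmem : ∀ a, a ∈ (subs Q).getD i.val [] ↔ a ∈ (subs Q).getD j.val [] := by
      intro a
      constructor
      · intro ha
        have hA : IsAtom Q a := (hat a).1 (s1.subset ha)
        have : (⟨a, hA⟩ : At Q) ∈ phi Q n i := ha
        rw [hij] at this
        exact this
      · intro ha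
        have hA : IsAtom Q a := (hat a).1 (s2.subset ha)
        have : (⟨a, hA⟩ : At Q) ∈ phi Q n j := ha
        rw [← hij] at this
        exact this
    have heq : (subs Q).getD i.val [] = (subs Q).getD j.val [] := by
      rw [sublist_eq_filter s1 hnd, sublist_eq_filter s2 hnd]
      apply List.filter_congr
      intro x _
      exact decide_eq_decide.2 (hmem x)
    have hi : i.val < (subs Q).length := by
      have := i.2
      omega
    have hj : j.val < (subs Q).length := by
      have := j.2
      omega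
    rw [List.getD_eq_getElem _ _ hi, List.getD_eq_getElem _ _ hj] at heq
    have hnd2 : (subs Q).Nodup := List.nodup_sublists'.2 hnd
    exact Fin.ext ((List.Nodup.getElem_inj_iff hnd2).1 heq)
  · intro S
    set l : List Atom := (atoms Q).filter (fun a => decide (∃ h : IsAtom Q a, (⟨a, h⟩ : At Q) ∈ S))
      with hl
    have hls : l ∈ subs Q := List.mem_sublists'.2 List.filter_sublist
    obtain ⟨i, hi, hil⟩ := List.getElem_of_mem hls
    refine ⟨⟨i, by rw [hn]; exact hi⟩, ?_⟩
    ext c
    show c.1 ∈ (subs Q).getD i [] ↔ _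
    rw [List.getD_eq_getElem _ _ hi, hil, hl, List.mem_filter]
    constructor
    · rintro ⟨-, h2⟩
      obtain ⟨_, h3⟩ := of_decide_eq_true h2
      exact h3
    · intro hc
      exact ⟨(hat _).2 c.2, decide_eq_true ⟨c.2, hc⟩⟩

theorem tbl_get (Q : List Win) (f : List Atom → List Atom → List Atom) (i j : ℕ)
    (hi : i < (subs Q).length) (hj : j < (subs Q).length) :
    (tbl Q f).getD (i * (subs Q).length + j) 0 =
      (subs Q).findIdx (fun s => decide (s = f ((subs Q).getD i []) ((subs Q).getD j []))) := by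
  have hpos := subs_pos Q
  have ht : i * (subs Q).length + j < (subs Q).length * (subs Q).length := by
    calc i * (subs Q).length + j < i * (subs Q).length + (subs Q).length := by omega
      _ = (i + 1) * (subs Q).length := by ring
      _ ≤ (subs Q).length * (subs Q).length := Nat.mul_le_mul_right _ hi
  have hdiv : (i * (subs Q).length + j) / (subs Q).length = i := by
    rw [Nat.add_comm, Nat.add_mul_div_right _ _ hpos, Nat.div_eq_of_lt hj, Nat.zero_add]
  have hmod : (i * (subs Q).length + j) % (subs Q).length = j := by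
    rw [Nat.add_comm, Nat.add_mul_mod_self_right, Nat.mod_eq_of_lt hj]
  unfold tbl
  rw [List.getD_eq_getElem _ _ (by rw [List.length_map, List.length_range]; exact ht)]
  rw [List.getElem_map, List.getElem_range, hdiv, hmod]

/-- the table entries -/
theorem phi_op (Q : List Win) (n : ℕ) (hn : n + 1 = (subs Q).length)
    (f : List Atom → List Atom → List Atom)
    (hf : ∀ s t, f s t ∈ subs Q) (i j : Fin (n + 1)) :
    phi Q n (op n (tbl Q f) i j) =
      {c | c.1 ∈ f ((subs Q).getD i.val []) ((subs Q).getD j.val [])} := by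
  obtain ⟨i, hi⟩ := i
  obtain ⟨j, hj⟩ := j
  have hi' : i < (subs Q).length := by omega
  have hj' : j < (subs Q).length := by omega
  have hentry := tbl_get Q f i j hi' hj'
  set L := f ((subs Q).getD i []) ((subs Q).getD j []) with hLdef
  have hLm : L ∈ subs Q := hf _ _
  have hlt : (subs Q).findIdx (fun s => decide (s = L)) < (subs Q).length :=
    List.findIdx_lt_length_of_exists ⟨L, hLm, by simp⟩
  have hget : (subs Q)[(subs Q).findIdx (fun s => decide (s = L))] = L := by
    have := List.findIdx_getElem (p := fun s => decide (s = L)) (w := hlt)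
    simpa using this
  have hval : (op n (tbl Q f) ⟨i, hi⟩ ⟨j, hj⟩).val =
      (subs Q).findIdx (fun s => decide (s = L)) := by
    unfold op
    show (tbl Q f).getD (i * (n + 1) + j) 0 % (n + 1) = _
    rw [hn, hentry]
    exact Nat.mod_eq_of_lt hlt
  ext c
  show c.1 ∈ (subs Q).getD (op n (tbl Q f) ⟨i, hi⟩ ⟨j, hj⟩).val [] ↔ c.1 ∈ L
  rw [hval, List.getD_eq_getElem _ _ hlt, hget]

theorem main_n (hC1 : C1) (Q : List Win) (n : ℕ) (hn : n + 1 = (subs Q).length) :
    (Rep.{u} (op n (tbl Q (cmpL Q))) (op n (tbl Q (impL Q))) ↔ Rep.{u} (cmpS Q) (impS Q)) ∧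
    (FinRep.{u} (op n (tbl Q (cmpL Q))) (op n (tbl Q (impL Q))) ↔
      FinRep.{u} (cmpS Q) (impS Q)) := by
  classical
  obtain ⟨hnd, hat⟩ := hC1.1 Q
  have hsubmem : ∀ (i : Fin (n + 1)) (a : Atom),
      a ∈ (subs Q).getD i.val [] → IsAtom Q a := by
    intro i a ha
    exact (hat a).1 ((List.mem_sublists'.1 (getD_mem Q n hn i)).subset ha)
  have hcm : ∀ s t, cmpL Q s t ∈ subs Q := by
    intro s t
    exact List.mem_sublists'.2 List.filter_sublist
  have him : ∀ s t, impL Q s t ∈ subs Q := by
    intro s t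
    exact List.mem_sublists'.2 List.filter_sublist
  have hom1 : ∀ i j, phi Q n (op n (tbl Q (cmpL Q)) i j) = cmpS Q (phi Q n i) (phi Q n j) := by
    intro i j
    rw [phi_op Q n hn _ hcm]
    ext c
    rw [Set.mem_ofPred_eq]
    unfold cmpL
    rw [List.mem_filter, decide_eq_true_iff]
    constructor
    · rintro ⟨-, a, ha, b, hb, hm⟩
      exact ⟨⟨a, hsubmem i a ha⟩, ha, ⟨b, hsubmem j b hb⟩, hb, hm⟩
    · rintro ⟨a, ha, b, hb, hm⟩
      exact ⟨(hat _).2 c.2, a.1, ha, b.1, hb, hm⟩
  have hom2 : ∀ i j, phi Q n (op n (tbl Q (impL Q)) i j) = impS Q (phi Q n i) (phi Q n j) := by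
    intro i j
    rw [phi_op Q n hn _ him]
    ext c
    rw [Set.mem_ofPred_eq]
    unfold impL
    rw [List.mem_filter, decide_eq_true_iff]
    constructor
    · rintro ⟨-, h3⟩
      by_cases h4 : c ∈ phi Q n i
      · exact Or.inr (h3 h4)
      · exact Or.inl h4
    · intro hc
      refine ⟨(hat _).2 c.2, ?_⟩
      intro h4
      rcases hc with h5 | h5
      · exact absurd h4 h5
      · exact h5
  have key : ∀ e : Fin (n + 1) ≃ Set (At Q), (∀ i, e i = phi Q n i) →
      (Rep.{u} (op n (tbl Q (cmpL Q))) (op n (tbl Q (impL Q))) ↔ Rep.{u} (cmpS Q) (impS Q)) ∧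
      (FinRep.{u} (op n (tbl Q (cmpL Q))) (op n (tbl Q (impL Q))) ↔
        FinRep.{u} (cmpS Q) (impS Q)) := by
    intro e he
    have g1 : ∀ i j, e (op n (tbl Q (cmpL Q)) i j) = cmpS Q (e i) (e j) := by
      intro i j
      rw [he, he, he]
      exact hom1 i j
    have g2 : ∀ i j, e (op n (tbl Q (impL Q)) i j) = impS Q (e i) (e j) := by
      intro i j
      rw [he, he, he]
      exact hom2 i j
    exact rep_iff e g1 g2
  exact key (Equiv.ofBijective (phi Q n) (phi_bij hC1 Q n hn))
    (fun i => Equiv.ofBijective_apply _ _ _)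

theorem repCode_mk (n : ℕ) (c d : List ℕ) : RepCode.{u} (n, (c, d)) ↔ Rep.{u} (op n c) (op n d) :=
  Iff.rfl

theorem finRepCode_mk (n : ℕ) (c d : List ℕ) :
    FinRepCode.{u} (n, (c, d)) ↔ FinRep.{u} (op n c) (op n d) :=
  Iff.rfl

theorem t_C5 : C5.{u} := by
  intro hC1 Q
  have hpos := subs_pos Q
  have h := main_n.{u} hC1 Q ((subs Q).length - 1) (by omega)
  unfold code
  rw [repCode_mk, finRepCode_mk]
  exact h

end Run7.h930.WR
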